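import Pool.Agent.H78.NS.Defs
import Pool.Agent.H61.TT.Equal

/-!
# Module PFI: the push forward is a contraction of `L ^ 1`

PROOF. `H y = F y / dg y ^ 2` is measurable (`measurable_dg`, H61/TT/Area). MEASURABILITY of `x ↦ ∑_(y ∈ fs x) H y`: `H = h1 - h2 + i (h3 - h4)` with measurable `h_i ≥ 0` (`max (Re H) 0`, `max (- Re H) 0`, ...). `x ↦ ∑_(y ∈ fs x) ENNReal.ofReal (h_i y)` is a.e. measurable: copy the private lemma `fs_sum_aem` of H61/TT/Equal (statement and proof there);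
its `toReal` is `∑_(y ∈ fs x) h_i y` (finite sum of finite terms). So `pf a b F` is a combination of four a.e. measurable functions: `AEStronglyMeasurable`.
BOUND. `‖pf a b F x‖ₑ ≤ ∑_(y ∈ fs x) E y`, `E y = ‖F y‖ₑ * ENNReal.ofReal ((‖dg a b y‖ ^ 2)⁻¹)` (`enorm_sum_le`), and `area` (H61/TT/Area) with `T = univ`: `∫⁻ x, ∑_(y ∈ fs x) E y = ∫⁻ y in pre a b univ, E y * ENNReal.ofReal (‖dg a b y‖ ^ 2) ≤ ∫⁻ y, ‖F y‖ₑ` (pointwise: the product of the two factors is at most 1). `Integrable`: `HasFiniteIntegral` from the bound.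
-/

set_option autoImplicit false

open Filter Topology Polynomial Metric Set MeasureTheory

namespace Pool.Agent.H31.NS

open Pool.Agent.H61.TT Pool.Agent.H78.NS

variable {d : ℕ} {a b : Polynomial ℂ}

private theorem fs_aem (h : RatD d a b) {F : ℂ → ENNReal} (hF : Measurable F) :
    AEMeasurable (fun x : ℂ => ∑ y ∈ fs a b x, F y) volume := by
  classical
  obtain ⟨A, hAm, hAd, hAi, hAc⟩ := inj_cover h
  have hm : ∀ k, Measurable (fun x => ∑ y ∈ fs a b x, (A k).indicator F y) := by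
    intro k
    refine (area_piece h (hAm k) MeasurableSet.univ (hAi k) ?_ hF).1
    rw [← hAc]
    exact subset_iUnion A k
  refine ⟨fun x => ∑' k, ∑ y ∈ fs a b x, (A k).indicator F y,
    Measurable.ennreal_tsum hm, ?_⟩
  have hfin : ∀ᵐ x : ℂ, RegV d a b x := by
    rw [ae_iff]
    exact (reg_finite h).measure_zero _
  filter_upwards [hfin] with x hx
  rw [Summable.tsum_finsetSum (fun _ _ => ENNReal.summable)]
  apply Finset.sum_congr rfl
  intro y hy
  have hy1 : y ∈ ⋃ k, A k := by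
    rw [hAc]
    exact ⟨hx.hb y hy, hx.hw y hy⟩
  obtain ⟨k, hk⟩ := mem_iUnion.1 hy1
  rw [tsum_eq_single k]
  · rw [indicator_of_mem hk]
  · intro j hj
    rw [indicator_of_notMem]
    intro hyj
    exact (Set.disjoint_left.1 (hAd hj)) hyj hk

private theorem fs_aemR (h : RatD d a b) {u : ℂ → ℝ} (hu : Measurable u) :
    AEMeasurable (fun x : ℂ => ∑ y ∈ fs a b x, u y) volume := by
  have h1 := (fs_aem h (F := fun y => ENNReal.ofReal (u y)) hu.ennreal_ofReal).ennreal_toReal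
  have h2 := (fs_aem h (F := fun y => ENNReal.ofReal (-u y)) hu.neg.ennreal_ofReal).ennreal_toReal
  refine (h1.sub h2).congr (ae_of_all _ fun x => ?_)
  show (∑ y ∈ fs a b x, ENNReal.ofReal (u y)).toReal -
    (∑ y ∈ fs a b x, ENNReal.ofReal (-u y)).toReal = ∑ y ∈ fs a b x, u y
  rw [ENNReal.toReal_sum fun _ _ => ENNReal.ofReal_ne_top,
    ENNReal.toReal_sum fun _ _ => ENNReal.ofReal_ne_top, ← Finset.sum_sub_distrib]
  refine Finset.sum_congr rfl fun y _ => ?_
  rcases le_total 0 (u y) with h3 | h3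
  · rw [ENNReal.toReal_ofReal h3, ENNReal.ofReal_of_nonpos (by linarith), ENNReal.toReal_zero,
      sub_zero]
  · rw [ENNReal.ofReal_of_nonpos h3, ENNReal.toReal_ofReal (by linarith), ENNReal.toReal_zero]
    ring

private theorem fs_aemC (h : RatD d a b) {u : ℂ → ℂ} (hu : Measurable u) :
    AEMeasurable (fun x : ℂ => ∑ y ∈ fs a b x, u y) volume := by
  have h1 := fs_aemR h (u := fun y => (u y).re) (Complex.measurable_re.comp hu)
  have h2 := fs_aemR h (u := fun y => (u y).im) (Complex.measurable_im.comp hu)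
  have h3 := (Complex.measurable_ofReal.comp_aemeasurable h1).add
    ((Complex.measurable_ofReal.comp_aemeasurable h2).mul_const Complex.I)
  refine h3.congr (ae_of_all _ fun x => ?_)
  show ((∑ y ∈ fs a b x, (u y).re : ℝ) : ℂ) + ((∑ y ∈ fs a b x, (u y).im : ℝ) : ℂ) * Complex.I =
    ∑ y ∈ fs a b x, u y
  rw [← Complex.re_sum, ← Complex.im_sum, Complex.re_add_im]

theorem pf_int (h : RatD d a b) {F : ℂ → ℂ} (hFm : Measurable F) (hF : Integrable F) :
    Integrable (pf a b F) ∧ ∫⁻ x : ℂ, ‖pf a b F x‖ₑ ≤ ∫⁻ y : ℂ, ‖F y‖ₑ := by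
  have hdm : Measurable (dg a b) := measurable_dg
  have hm : AEMeasurable (pf a b F) volume := by
    have h1 := fs_aemC h (u := fun y => F y / dg a b y ^ 2) (hFm.div (hdm.pow_const 2))
    exact h1
  set E : ℂ → ENNReal := fun y => ‖F y / dg a b y ^ 2‖ₑ with hE
  have hEm : Measurable E := (hFm.div (hdm.pow_const 2)).enorm
  have hEle : ∀ y, E y * ENNReal.ofReal (‖dg a b y‖ ^ 2) ≤ ‖F y‖ₑ := by
    intro y
    by_cases hy : dg a b y = 0
    · rw [hy]; simp
    · rw [hE]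
      simp only
      rw [← ofReal_norm, ← ofReal_norm, ← ENNReal.ofReal_mul (norm_nonneg _)]
      apply ENNReal.ofReal_le_ofReal
      rw [norm_div, norm_pow]
      have : ‖dg a b y‖ ≠ 0 := norm_ne_zero_iff.2 hy
      apply le_of_eq
      field_simp
  have hbd : ∫⁻ x : ℂ, ‖pf a b F x‖ₑ ≤ ∫⁻ y : ℂ, ‖F y‖ₑ := by
    calc ∫⁻ x : ℂ, ‖pf a b F x‖ₑ ≤ ∫⁻ x : ℂ, ∑ y ∈ fs a b x, E y := by
          refine lintegral_mono fun x => ?_
          exact enorm_sum_le _ _
      _ = ∫⁻ x in univ, ∑ y ∈ fs a b x, E y := by rw [Measure.restrict_univ]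
      _ = ∫⁻ y in pre a b univ, E y * ENNReal.ofReal (‖dg a b y‖ ^ 2) :=
          area h MeasurableSet.univ hEm
      _ ≤ ∫⁻ y in pre a b univ, ‖F y‖ₑ := lintegral_mono hEle
      _ ≤ ∫⁻ y : ℂ, ‖F y‖ₑ := setLIntegral_le_lintegral _ _
  exact ⟨⟨hm.aestronglyMeasurable, lt_of_le_of_lt hbd hF.2⟩, hbd⟩

end Pool.Agent.H31.NS
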