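import Pool.Agent.H78.NS.Defs
import Pool.Agent.H1.PU.Ker
import Pool.Agent.H31.NS.PFI

/-!
# Module AS: the functions `aS` are measurable and integrable; the push forward of `KA p` is integrable
-/

set_option autoImplicit false

open Filter Topology Polynomial Metric Set MeasureTheory

namespace Pool.Agent.H31.NS

open Pool.Agent.H61.TT Pool.Agent.H57.CP Pool.Agent.H3.NC Pool.Agent.H78.NS
open Pool.Agent.H1.PU (KA ka_int)

variable {d : ℕ} {a b : Polynomial ℂ}

theorem ka_meas (p : ℂ) : Measurable (KA p) := by
  unfold KA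
  fun_prop

theorem aS_meas (a b : Polynomial ℂ) (v : ℂ) (n : ℕ) : Measurable (aS a b v n) := by
  unfold aS
  refine Measurable.const_mul ?_ _
  exact Finset.measurable_fun_sum _ fun k _ => (ka_meas _).const_mul _

theorem aS_int (a b : Polynomial ℂ) (v : ℂ) (n : ℕ) : Integrable (aS a b v n) := by
  unfold aS
  refine Integrable.const_mul ?_ _
  exact integrable_finsetSum _ fun k _ => (ka_int _).const_mul _

theorem pf_aS (h : RatD d a b) (v : ℂ) (n : ℕ) : Integrable (pf a b (aS a b v n)) :=
  (pf_int h (aS_meas a b v n) (aS_int a b v n)).1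

theorem pf_ka (h : RatD d a b) (p : ℂ) : Integrable (pf a b (KA p)) :=
  (pf_int h (ka_meas p) (ka_int p)).1

end Pool.Agent.H31.NS
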