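import Pool.Agent.H78.NS.Defs
import Pool.Agent.H1.PU.Idn

/-!
# Module TEL: the telescoping sums: the moments of the residues are small

For every `e` the field `(g - e) - (1/2) g' (x - e) = η / b ^ 2` with `η = a b - e b ^ 2 - (1/2) ww (x - e)` of degree at most `2 d`:
`Lam η c n = (1/2) ∑_(k < n) (v_k - e) / tD k v + (v_n - e) / tD n v`. So the moments of order `0` and `1` are bounded by `C (1 + ‖v_n‖ ^ 2) / ‖tD n v‖` (`mom`), and `aS` differs from the sum with the Cauchy kernel by a bounded multiple of `(‖z‖ + 1) / (‖z‖ ‖z - 1‖)` (`aS_an`).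
-/

set_option autoImplicit false

open Filter Topology Polynomial Metric Set MeasureTheory

namespace Pool.Agent.H31.NS

open Pool.Agent.H61.TT Pool.Agent.H57.CP Pool.Agent.H3.NC Pool.Agent.H78.NS
open Pool.Agent.H1.PU (KA ww_deg ka_pf)

variable {d : ℕ} {a b : Polynomial ℂ} {c : ℂ}

theorem tD_succ' (a b : Polynomial ℂ) (k : ℕ) (z : ℂ) :
    tD a b (k + 1) z = tD a b k z * dg a b ((gg a b)^[k] z) := by
  unfold tD
  rw [Finset.prod_range_succ]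

/-- the numerator -/
noncomputable def eta (a b : Polynomial ℂ) (e : ℂ) : Polynomial ℂ :=
  a * b - C e * b ^ 2 - ww a b * (X - C e) * C (1 / 2)

theorem eta_deg (h : RatD d a b) (e : ℂ) : (eta a b e).natDegree ≤ 2 * d := by
  have ha : a.natDegree ≤ d := by rw [← h.deg]; exact le_max_left _ _
  have hb : b.natDegree ≤ d := by rw [← h.deg]; exact le_max_right _ _
  have hw := ww_deg h
  unfold eta
  refine (natDegree_sub_le _ _).trans (max_le ((natDegree_sub_le _ _).trans (max_le ?_ ?_)) ?_)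
  · exact natDegree_mul_le.trans (by omega)
  · refine (natDegree_C_mul_le _ _).trans ?_
    exact natDegree_pow_le.trans (by omega)
  · refine (natDegree_mul_C_le _ _).trans (natDegree_mul_le.trans ?_)
    have e1 : (X - C e : Polynomial ℂ).natDegree ≤ 1 := by
      rw [natDegree_X_sub_C]
    omega

theorem eta_val (e : ℂ) {z : ℂ} (hz : b.eval z ≠ 0) :
    (eta a b e).eval z / b.eval z ^ 2 = (gg a b z - e) - 1 / 2 * (dg a b z * (z - e)) := by
  unfold eta gg dg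
  simp only [eval_sub, eval_mul, eval_C, eval_X, eval_pow]
  field_simp

theorem tel (hcb : b.eval c ≠ 0) (hcw : (ww a b).eval c = 0)
    (hob : ∀ k : ℕ, b.eval ((gg a b)^[k] (gg a b c)) ≠ 0) (e : ℂ) {n : ℕ}
    (hn : ∀ k ≤ n, tD a b k (gg a b c) ≠ 0) :
    Lam a b (eta a b e) c n = 1 / 2 * ∑ k ∈ Finset.range n, (tD a b k (gg a b c))⁻¹ * ((gg a b)^[k] (gg a b c) - e) +
      (tD a b n (gg a b c))⁻¹ * ((gg a b)^[n] (gg a b c) - e) := by
  set v : ℂ := gg a b c with hv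
  have hdc : dg a b c = 0 := by
    unfold dg
    rw [hcw, zero_div]
  induction n with
  | zero =>
    unfold Lam
    rw [Finset.sum_range_one, Finset.sum_range_zero, Function.iterate_zero_apply, eta_val e hcb, hdc]
    simp [tD, hv]
  | succ n ih =>
    have ih' := ih fun k hk => hn k (by omega)
    have e1 : Lam a b (eta a b e) c (n + 1) = Lam a b (eta a b e) c n +
        (eta a b e).eval ((gg a b)^[n + 1] c) / b.eval ((gg a b)^[n + 1] c) ^ 2 / tD a b (n + 1) v := by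
      unfold Lam
      rw [Finset.sum_range_succ]
    have e2 : (gg a b)^[n + 1] c = (gg a b)^[n] v := by rw [Function.iterate_succ_apply]
    have h0 := hn n (by omega)
    have h1 := hn (n + 1) le_rfl
    have e3 := tD_succ' a b n v
    have hd : dg a b ((gg a b)^[n] v) ≠ 0 := by
      intro h2
      rw [e3, h2, mul_zero] at h1
      exact h1 rfl
    rw [e1, e2, eta_val e (hob n), ih', Finset.sum_range_succ, e3, Function.iterate_succ_apply']
    field_simp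
    ring

/-- the moments of the residues -/
theorem mom (h : RatD d a b) (hcb : b.eval c ≠ 0) (hcw : (ww a b).eval c = 0)
    (hob : ∀ k : ℕ, b.eval ((gg a b)^[k] (gg a b c)) ≠ 0) (hp : PasS d a b c) (e : ℂ) :
    ∃ C : ℝ, ∀ n : ℕ, (∀ k ≤ n, tD a b k (gg a b c) ≠ 0) →
    ‖tD a b n (gg a b c) * ∑ k ∈ Finset.range n, (tD a b k (gg a b c))⁻¹ * ((gg a b)^[k] (gg a b c) - e)‖ ≤
      C * (1 + ‖(gg a b)^[n] (gg a b c)‖ ^ 2) := by
  obtain ⟨C, hC⟩ := hp (eta a b e) (eta_deg h e)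
  refine ⟨2 * C + 2 * (1 + ‖e‖), fun n hn => ?_⟩
  have h1 := tel hcb hcw hob e hn
  have h2 := hC n
  set S : ℂ := ∑ k ∈ Finset.range n, (tD a b k (gg a b c))⁻¹ * ((gg a b)^[k] (gg a b c) - e) with hS
  set w : ℂ := (gg a b)^[n] (gg a b c) with hw
  have h3 := hn n le_rfl
  have h4 : S = 2 * Lam a b (eta a b e) c n - 2 * ((tD a b n (gg a b c))⁻¹ * (w - e)) := by
    rw [h1]
    ring
  have h5 : 0 < ‖tD a b n (gg a b c)‖ := norm_pos_iff.2 h3
  have h6 : ‖S‖ ≤ 2 * ‖Lam a b (eta a b e) c n‖ + 2 * (‖tD a b n (gg a b c)‖⁻¹ * ‖w - e‖) := by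
    rw [h4]
    refine (norm_sub_le _ _).trans ?_
    rw [norm_mul, norm_mul, norm_mul, norm_inv, Complex.norm_ofNat]
  have h7 : ‖w - e‖ ≤ (1 + ‖e‖) * (1 + ‖w‖ ^ 2) := by
    have e1 := norm_sub_le w e
    have e2 := norm_nonneg w
    have e3 := norm_nonneg e
    nlinarith [sq_nonneg (‖w‖ - 1), mul_nonneg e3 (sq_nonneg ‖w‖)]
  rw [norm_mul, mul_comm]
  calc ‖S‖ * ‖tD a b n (gg a b c)‖ ≤ (2 * ‖Lam a b (eta a b e) c n‖ +
        2 * (‖tD a b n (gg a b c)‖⁻¹ * ‖w - e‖)) * ‖tD a b n (gg a b c)‖ :=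
        mul_le_mul_of_nonneg_right h6 h5.le
    _ = 2 * (‖Lam a b (eta a b e) c n‖ * ‖tD a b n (gg a b c)‖) + 2 * ‖w - e‖ := by
        field_simp
    _ ≤ 2 * (C * (1 + ‖w‖ ^ 2)) + 2 * ((1 + ‖e‖) * (1 + ‖w‖ ^ 2)) := by gcongr
    _ = (2 * C + 2 * (1 + ‖e‖)) * (1 + ‖w‖ ^ 2) := by ring

/-- the functions `aS` and the sums with the Cauchy kernel, at all times -/
theorem aS_an' (h : RatD d a b) (hcb : b.eval c ≠ 0) (hcw : (ww a b).eval c = 0)
    (hob : ∀ k : ℕ, b.eval ((gg a b)^[k] (gg a b c)) ≠ 0) (hp : PasS d a b c) :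
    ∃ C : ℝ, 0 ≤ C ∧ ∀ n : ℕ, (∀ k ≤ n, tD a b k (gg a b c) ≠ 0) → ∀ z : ℂ, z ≠ 0 → z ≠ 1 →
      (∀ k < n, z ≠ (gg a b)^[k] (gg a b c)) →
      ‖aS a b (gg a b c) n z - tD a b n (gg a b c) * An a b (gg a b c) n z‖ ≤
        C * (1 + ‖(gg a b)^[n] (gg a b c)‖ ^ 2) * ((‖z‖ + 1) / (‖z‖ * ‖z - 1‖)) := by
  obtain ⟨C0, h0⟩ := mom h hcb hcw hob hp 0
  obtain ⟨C1, h1⟩ := mom h hcb hcw hob hp 1
  refine ⟨2 * max (max C0 C1) 0, by positivity, fun n hn z hz0 hz1 hz => ?_⟩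
  have k0 := h0 n hn
  have k1 := h1 n hn
  set v : ℂ := gg a b c with hv
  set w : ℂ := (gg a b)^[n] v with hw
  set D : ℝ := max (max C0 C1) 0 with hD
  have hD0 : 0 ≤ D := le_max_right _ _
  have hW : 0 ≤ 1 + ‖w‖ ^ 2 := by positivity
  have k0' : ‖tD a b n v * ∑ k ∈ Finset.range n, (tD a b k v)⁻¹ * ((gg a b)^[k] v - 0)‖ ≤ D * (1 + ‖w‖ ^ 2) :=
    k0.trans (mul_le_mul_of_nonneg_right ((le_max_left _ _).trans (le_max_left _ _)) hW)
  have k1' : ‖tD a b n v * ∑ k ∈ Finset.range n, (tD a b k v)⁻¹ * ((gg a b)^[k] v - 1)‖ ≤ D * (1 + ‖w‖ ^ 2) :=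
    k1.trans (mul_le_mul_of_nonneg_right ((le_max_right _ _).trans (le_max_left _ _)) hW)
  have e1 : aS a b v n z - tD a b n v * An a b v n z =
      (tD a b n v * ∑ k ∈ Finset.range n, (tD a b k v)⁻¹ * ((gg a b)^[k] v - 1)) / z -
      (tD a b n v * ∑ k ∈ Finset.range n, (tD a b k v)⁻¹ * ((gg a b)^[k] v - 0)) / (z - 1) := by
    unfold aS An
    rw [← mul_sub, ← Finset.sum_sub_distrib, mul_div_assoc, mul_div_assoc, ← mul_sub, Finset.sum_div, Finset.sum_div,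
      ← Finset.sum_sub_distrib]
    congr 1
    refine Finset.sum_congr rfl fun k hk => ?_
    rw [ka_pf hz0 hz1 (hz k (Finset.mem_range.1 hk))]
    ring
  have p0 : 0 < ‖z‖ := norm_pos_iff.2 hz0
  have p1 : 0 < ‖z - 1‖ := norm_pos_iff.2 (sub_ne_zero.2 hz1)
  have e2 : ‖z - 1‖ ≤ ‖z‖ + 1 := by
    have := norm_sub_le z 1
    rwa [norm_one] at this
  rw [e1]
  refine (norm_sub_le _ _).trans ?_
  rw [norm_div, norm_div]
  calc _ ≤ (D * (1 + ‖w‖ ^ 2)) / ‖z‖ + (D * (1 + ‖w‖ ^ 2)) / ‖z - 1‖ :=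
        add_le_add (div_le_div_of_nonneg_right k1' p0.le) (div_le_div_of_nonneg_right k0' p1.le)
    _ = (D * (1 + ‖w‖ ^ 2)) * ((‖z - 1‖ + ‖z‖) / (‖z‖ * ‖z - 1‖)) := by
        field_simp
    _ ≤ (D * (1 + ‖w‖ ^ 2)) * (2 * (‖z‖ + 1) / (‖z‖ * ‖z - 1‖)) := by
        refine mul_le_mul_of_nonneg_left (div_le_div_of_nonneg_right (by linarith) (by positivity)) (by positivity)
    _ = _ := by ring

/-- the points `g^(n j) v` are bounded -/
theorem vn_bdd {v y x0 : ℂ} {δ : ℝ} {n s : ℕ → ℕ} {G : ℕ → ℂ → ℂ} (hs : SQS a b v y x0 δ n s G) :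
    ∃ B : ℝ, 0 ≤ B ∧ ∀ j, ‖(gg a b)^[n j] v‖ ≤ B := by
  obtain ⟨B, hB⟩ := (Metric.isBounded_range_of_tendsto _ hs.yl).exists_norm_le
  exact ⟨max B 0, le_max_right _ _, fun j => (hB _ ⟨j, rfl⟩).trans (le_max_left _ _)⟩

/-- the derivatives along the orbit do not vanish -/
theorem tD_ne {v y x0 : ℂ} {δ : ℝ} {n s : ℕ → ℕ} {G : ℕ → ℂ → ℂ} (hs : SQS a b v y x0 δ n s G) (j k : ℕ)
    (hk : k ≤ n j) : tD a b k v ≠ 0 := by
  have := hs.sq.pos j k hk
  unfold Dk at this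
  exact norm_pos_iff.1 this

/-- the functions `aS` and the sums with the Cauchy kernel, at the selected times -/
theorem aS_an {L0 θ : ℝ} {y x0 : ℂ} {δ δ' : ℝ} {n s : ℕ → ℕ} {G : ℕ → ℂ → ℂ} (h : SP d a b L0 θ)
    (hc : CD a b c y δ') (hp : PasS d a b c) (hs : SQS a b (gg a b c) y x0 δ n s G) :
    ∃ C : ℝ, 0 ≤ C ∧ ∀ (j : ℕ) (z : ℂ), z ≠ 0 → z ≠ 1 → (∀ k < n j, z ≠ (gg a b)^[k] (gg a b c)) →
      ‖aS a b (gg a b c) (n j) z - tD a b (n j) (gg a b c) * An a b (gg a b c) (n j) z‖ ≤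
        C * ((‖z‖ + 1) / (‖z‖ * ‖z - 1‖)) := by
  obtain ⟨C, hC0, hC⟩ := aS_an' h.rt hc.cb hc.cw hc.ob hp
  obtain ⟨B, hB0, hB⟩ := vn_bdd hs
  refine ⟨C * (1 + B ^ 2), by positivity, fun j z h0 h1 hz => ?_⟩
  refine (hC (n j) (fun k hk => tD_ne hs j k hk) z h0 h1 hz).trans ?_
  have hb := hB j
  gcongr

end Pool.Agent.H31.NS
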