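import Pool.Agent.H78.NS.Defs
import Pool.Agent.H1.PU.Idn
import Pool.Agent.H31.NS.TEL

/-!
# Module IDN: the identity `aS n x - pf (aS n) x = - tD n v * Lam η c n - KA (g^n v) x`

PROOF. `lagr_ka` (H1/PU/Idn): `dg z * pf (KA z) x = KA (gg z) x + η z / b z ^ 2` for all `z`. At `z = c`: `0 = KA v x + η c / b c ^ 2`; at `z = g^k v`: divide by `dg (g^k v)`, multiply by `(tD k v)⁻¹` and sum over `k < n`: the sum telescopes.
-/

set_option autoImplicit false

open Filter Topology Polynomial Metric Set MeasureTheory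

namespace Pool.Agent.H31.NS

open Pool.Agent.H61.TT Pool.Agent.H57.CP Pool.Agent.H3.NC Pool.Agent.H78.NS
open Pool.Agent.H1.PU (KA lagr_ka)

variable {d : ℕ} {a b : Polynomial ℂ} {c : ℂ}

/-- the Lagrange identity with the normalised kernel at `x` -/
def LgK (d : ℕ) (a b : Polynomial ℂ) (x : ℂ) (η : Polynomial ℂ) : Prop :=
  η.natDegree ≤ 2 * d ∧ ∀ z : ℂ, b.eval z ≠ 0 → gg a b z ≠ x →
    dg a b z * pf a b (KA z) x = KA (gg a b z) x + η.eval z / b.eval z ^ 2

theorem pf_sum (a b : Polynomial ℂ) (t : ℂ) (n : ℕ) (β : ℕ → ℂ) (F : ℕ → ℂ → ℂ) (x : ℂ) :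
    pf a b (fun z => t * ∑ k ∈ Finset.range n, β k * F k z) x =
      t * ∑ k ∈ Finset.range n, β k * pf a b (F k) x := by
  unfold pf
  have h1 : ∀ y ∈ fs a b x, (t * ∑ k ∈ Finset.range n, β k * F k y) / dg a b y ^ 2 =
      ∑ k ∈ Finset.range n, t * (β k * (F k y / dg a b y ^ 2)) := by
    intro y _
    rw [Finset.mul_sum, Finset.sum_div]
    refine Finset.sum_congr rfl fun k _ => ?_
    ring
  rw [Finset.sum_congr rfl h1, Finset.sum_comm, Finset.mul_sum]
  refine Finset.sum_congr rfl fun k _ => ?_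
  rw [← Finset.mul_sum, ← Finset.mul_sum]

/-- the identity at one point -/
theorem idn_pt (hcb : b.eval c ≠ 0) (hcw : (ww a b).eval c = 0)
    (hob : ∀ k : ℕ, b.eval ((gg a b)^[k] (gg a b c)) ≠ 0) {n : ℕ}
    (hn : ∀ k ≤ n, tD a b k (gg a b c) ≠ 0) {x : ℂ} (hx : ∀ k ≤ n, (gg a b)^[k] (gg a b c) ≠ x) {η : Polynomial ℂ}
    (hη : LgK d a b x η) :
    aS a b (gg a b c) n x - pf a b (aS a b (gg a b c) n) x =
      - (tD a b n (gg a b c) * Lam a b η c n) - KA ((gg a b)^[n] (gg a b c)) x := by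
  set v : ℂ := gg a b c with hv
  have hc0 : KA v x + η.eval c / b.eval c ^ 2 = 0 := by
    have h1 := hη.2 c hcb (hx 0 (Nat.zero_le _))
    have h2 : dg a b c = 0 := by
      unfold dg
      rw [hcw, zero_div]
    rw [h2, zero_mul] at h1
    exact h1.symm
  have hstep : ∀ k ∈ Finset.range n, (tD a b k v)⁻¹ * pf a b (KA ((gg a b)^[k] v)) x =
      (tD a b (k + 1) v)⁻¹ * KA ((gg a b)^[k + 1] v) x +
        η.eval ((gg a b)^[k] v) / b.eval ((gg a b)^[k] v) ^ 2 / tD a b (k + 1) v := by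
    intro k hk
    have hk' := Finset.mem_range.1 hk
    have h1 := hη.2 ((gg a b)^[k] v) (hob k) (by
      have := hx (k + 1) hk'
      rwa [Function.iterate_succ_apply'] at this)
    have h3 := hn (k + 1) hk'
    rw [tD_succ'] at h3
    have h5 : dg a b ((gg a b)^[k] v) ≠ 0 := right_ne_zero_of_mul h3
    rw [tD_succ', Function.iterate_succ_apply']
    have h6 : pf a b (KA ((gg a b)^[k] v)) x =
        (dg a b ((gg a b)^[k] v))⁻¹ * (KA (gg a b ((gg a b)^[k] v)) x +
          η.eval ((gg a b)^[k] v) / b.eval ((gg a b)^[k] v) ^ 2) := by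
      rw [← h1, inv_mul_cancel_left₀ h5]
    rw [h6, mul_inv]
    ring
  have hpf : pf a b (aS a b v n) x = tD a b n v * (∑ k ∈ Finset.range n, ((tD a b (k + 1) v)⁻¹ * KA ((gg a b)^[k + 1] v) x +
        η.eval ((gg a b)^[k] v) / b.eval ((gg a b)^[k] v) ^ 2 / tD a b (k + 1) v)) := by
    rw [← Finset.sum_congr rfl hstep]
    exact pf_sum a b (tD a b n v) n (fun k => (tD a b k v)⁻¹) (fun k => KA ((gg a b)^[k] v)) x
  have hLam : Lam a b η c n = ∑ k ∈ Finset.range n,
      η.eval ((gg a b)^[k] v) / b.eval ((gg a b)^[k] v) ^ 2 / tD a b (k + 1) v +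
        η.eval c / b.eval c ^ 2 := by
    unfold Lam
    rw [Finset.sum_range_succ']
    congr 1
    change η.eval c / b.eval c ^ 2 / tD a b 0 v = _
    unfold tD
    rw [Finset.prod_range_zero, div_one]
  have hAn : (∑ k ∈ Finset.range n, (tD a b k v)⁻¹ * KA ((gg a b)^[k] v) x) +
      (tD a b n v)⁻¹ * KA ((gg a b)^[n] v) x =
      ∑ k ∈ Finset.range n, (tD a b (k + 1) v)⁻¹ * KA ((gg a b)^[k + 1] v) x + KA v x := by
    rw [← Finset.sum_range_succ (fun k => (tD a b k v)⁻¹ * KA ((gg a b)^[k] v) x) n,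
      Finset.sum_range_succ']
    congr 1
    change (tD a b 0 v)⁻¹ * KA v x = _
    unfold tD
    rw [Finset.prod_range_zero, inv_one, one_mul]
  have hnn := hn n le_rfl
  rw [hpf, Finset.sum_add_distrib, hLam]
  unfold aS
  have e1 : (tD a b n v) * ((tD a b n v)⁻¹ * KA ((gg a b)^[n] v) x) = KA ((gg a b)^[n] v) x := by
    rw [mul_inv_cancel_left₀ hnn]
  linear_combination tD a b n v * hAn - e1 + tD a b n v * hc0

/-- the Lagrange identity holds at all but finitely many points -/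
theorem lgk_fin {L0 θ : ℝ} (h : SP d a b L0 θ) : {x | ¬ ∃ η : Polynomial ℂ, LgK d a b x η}.Finite := by
  have hf : ({x | ¬ RegV d a b x} ∪ {0, 1}).Finite := (reg_finite h.rt).union (by simp)
  refine hf.subset fun x hx => ?_
  by_contra hx2
  rw [mem_union, not_or] at hx2
  obtain ⟨h1, h2⟩ := hx2
  have h1' : RegV d a b x := not_not.1 h1
  simp only [mem_insert_iff, mem_singleton_iff, not_or] at h2
  obtain ⟨h20, h21⟩ := h2
  refine hx ?_
  obtain ⟨N, hN, hz⟩ := lagr_ka h.rt h1' h20 h21 (by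
    intro y hy
    obtain ⟨hb, hg⟩ := (mem_fs h.rt x y).1 hy
    constructor
    · rintro rfl
      exact h20 (hg.symm.trans h.f0)
    · rintro rfl
      exact h21 (hg.symm.trans h.f1))
  exact ⟨N, hN, fun z hb hg => hz z hb hg⟩

/-- the identity holds almost everywhere -/
theorem idn_ae {y : ℂ} {δ : ℝ} (hc : CD a b c y δ) {n : ℕ}
    (hn : ∀ k ≤ n, tD a b k (gg a b c) ≠ 0) : ∀ᵐ x : ℂ, ∀ η : Polynomial ℂ, LgK d a b x η →
    aS a b (gg a b c) n x - pf a b (aS a b (gg a b c) n) x =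
      - (tD a b n (gg a b c) * Lam a b η c n) - KA ((gg a b)^[n] (gg a b c)) x := by
  have hf : ((fun k => (gg a b)^[k] (gg a b c)) '' (Finset.range (n + 1) : Set ℕ)).Finite :=
    (Finset.finite_toSet _).image _
  filter_upwards [compl_mem_ae_iff.2 (hf.measure_zero volume)] with x hx η hη
  refine idn_pt hc.cb hc.cw hc.ob hn (fun k hk hkx => hx ⟨k, ?_, hkx⟩) hη
  simp only [Finset.coe_range, mem_Iio]
  omega

end Pool.Agent.H31.NS
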