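import Pool.Agent.H3.NC.KIN
import Pool.Agent.H1.PU.Ker

/-!
# Module KAC: the kernel `KA x z` depends continuously on `x` in `L ^ 1` of the plane (also at `x = 0, 1`)

PROOF. Put `R = 2 (‖y‖ + 2)`; eventually `‖x j‖ ≤ ‖y‖ + 1 ≤ R / 2`. Split the plane into `ball 0 R` and its complement (`lintegral_add_compl`).
INSIDE: off the finite set `{0, 1, x j, y}` (measure 0; `Set.Finite.measure_zero`, countable) `ka_pf` gives `KA (x j) z - KA y z = (1 / (z - x j) - 1 / (z - y)) + (x j - y) / z - (x j - y) / (z - 1)`. The first term: substitute `z = y + u` (`lintegral_add_right_eq_self` / `lintegral_sub_right_eq_self`; `ball 0 R ⊆ ball y (2 R)`):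
`∫⁻ u in ball 0 (2 R), ‖1 / (u - (x j - y)) - 1 / u‖ₑ → 0` by `kl1` (H3/NC/KIN, `β = 1`, `c = 1`, `z j = x j - y → 0`). The others: `‖x j - y‖ₑ` times `∫⁻ z in ball 0 R, ‖z⁻¹‖ₑ`, `∫⁻ z in ball 0 R, ‖(z - 1)⁻¹‖ₑ`, both at most `ENNReal.ofReal (3 π R)` (`kin_ball`), tends to 0.
OUTSIDE (`R ≤ ‖z‖`): `KA (x j) z - KA y z = (x j - y) (z (x j + y - 1) - x j y) / (z (z - 1) (z - x j) (z - y))` (see `ka_sub` in H1/PU/Ker), the denominators have norm at least `‖z‖ ^ 4 / 16` (`‖z - 1‖, ‖z - x j‖, ‖z - y‖ ≥ ‖z‖ / 2`), the numerator at most `‖x j - y‖ C ‖z‖`, so the integral is at most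
`‖x j - y‖ 16 C ∫⁻ z in (ball 0 R)ᶜ, ‖z‖ ^ (-3) < ∞` times a sequence tending to 0 (`‖z‖ ^ (-3) ≤ 8 (1 + ‖z‖) ^ (-3)` for `‖z‖ ≥ 1`, `integrable_one_add_norm` with `r = 3 > 2 = finrank ℝ ℂ`; compare `ka_int` / `B0_int` in H1/PU/Ker).
-/

set_option autoImplicit false

open Filter Topology Metric Set MeasureTheory

namespace Pool.Agent.H31.NS

open Pool.Agent.H1.PU (KA)

private theorem ka_in {a y z : ℂ} (h0 : z ≠ 0) (h1 : z ≠ 1) (ha : z ≠ a) (hy : z ≠ y) :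
    ‖KA a z - KA y z‖ₑ ≤ ‖1 / (z - a) - 1 / (z - y)‖ₑ +
      ‖a - y‖ₑ * (‖(z - 0)⁻¹‖ₑ + ‖(z - 1)⁻¹‖ₑ) := by
  have e : KA a z - KA y z = (1 / (z - a) - 1 / (z - y)) + (a - y) * ((z - 0)⁻¹ - (z - 1)⁻¹) := by
    rw [Pool.Agent.H1.PU.ka_pf h0 h1 ha, Pool.Agent.H1.PU.ka_pf h0 h1 hy, sub_zero]
    ring
  rw [e]
  refine (enorm_add_le _ _).trans (add_le_add le_rfl ?_)
  rw [enorm_mul]
  gcongr
  exact enorm_sub_le

private theorem ka_out {a y z : ℂ} {R : ℝ} (hR : 4 ≤ R) (hz : R ≤ ‖z‖) (ha : 2 * ‖a‖ ≤ R)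
    (hy : 2 * ‖y‖ ≤ R) :
    ‖KA a z - KA y z‖ₑ ≤ ‖a - y‖ₑ * (ENNReal.ofReal (192 * R) *
      ENNReal.ofReal ((1 + ‖z‖) ^ (-(3 : ℝ)))) := by
  have hz0 : 0 < ‖z‖ := by linarith
  have h0 : z ≠ 0 := norm_pos_iff.1 hz0
  have k1 : ‖z‖ ≤ 2 * ‖z - 1‖ := by
    have := norm_sub_norm_le z 1
    rw [norm_one] at this
    linarith
  have k2 : ‖z‖ ≤ 2 * ‖z - a‖ := by
    have := norm_sub_norm_le z a
    linarith
  have k3 : ‖z‖ ≤ 2 * ‖z - y‖ := by
    have := norm_sub_norm_le z y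
    linarith
  have p1 : 0 < ‖z - 1‖ := by linarith
  have p2 : 0 < ‖z - a‖ := by linarith
  have p3 : 0 < ‖z - y‖ := by linarith
  have h1 : z ≠ 1 := sub_ne_zero.1 (norm_pos_iff.1 p1)
  have h2 : z ≠ a := sub_ne_zero.1 (norm_pos_iff.1 p2)
  have h3 : z ≠ y := sub_ne_zero.1 (norm_pos_iff.1 p3)
  have h4 := Pool.Agent.H1.PU.ka_sub h0 h1 h2 h3
  have h5 : Pool.Agent.H1.PU.KD a y z ≤ ‖a - y‖ * (192 * R * (1 + ‖z‖) ^ (-(3 : ℝ))) := by
    unfold Pool.Agent.H1.PU.KD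
    have n1 : ‖z‖ * ‖a + y - 1‖ + ‖a * y‖ ≤ 3 * R * ‖z‖ := by
      have n2 : ‖a + y - 1‖ ≤ R + 1 := by
        have n3 := norm_sub_le (a + y) 1
        have n4 := norm_add_le a y
        rw [norm_one] at n3
        linarith
      have n3 : ‖a * y‖ ≤ R * ‖z‖ := by
        rw [norm_mul]
        exact mul_le_mul (by linarith [norm_nonneg a]) (by linarith [norm_nonneg y])
          (norm_nonneg _) (by linarith)
      nlinarith
    have n2 : ‖z‖ ^ 4 ≤ 8 * (‖z‖ * ‖z - 1‖ * ‖z - a‖ * ‖z - y‖) := by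
      have m1 : ‖z‖ * ‖z‖ ≤ (2 * ‖z - 1‖) * (2 * ‖z - a‖) :=
        mul_le_mul k1 k2 hz0.le (by linarith)
      have m2 : ‖z‖ * ‖z‖ * ‖z‖ ≤ (2 * ‖z - 1‖) * (2 * ‖z - a‖) * (2 * ‖z - y‖) :=
        mul_le_mul m1 k3 hz0.le (by positivity)
      have m3 := mul_le_mul_of_nonneg_left m2 hz0.le
      nlinarith
    have n3 : (1 + ‖z‖) ^ (-(3 : ℝ)) = 1 / (1 + ‖z‖) ^ 3 := by
      rw [Real.rpow_neg (by positivity), one_div]
      congr 1
      exact_mod_cast Real.rpow_natCast (1 + ‖z‖) 3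
    rw [n3, mul_one_div, mul_div_assoc]
    refine mul_le_mul_of_nonneg_left ?_ (norm_nonneg _)
    rw [div_le_div_iff₀ (by positivity) (by positivity)]
    have n4 : (1 + ‖z‖) ^ 3 ≤ 8 * ‖z‖ ^ 3 := by
      have m1 : (1 + ‖z‖) ^ 3 ≤ (2 * ‖z‖) ^ 3 := pow_le_pow_left₀ (by positivity) (by linarith) 3
      calc (1 + ‖z‖) ^ 3 ≤ (2 * ‖z‖) ^ 3 := m1
        _ = 8 * ‖z‖ ^ 3 := by ring
    calc (‖z‖ * ‖a + y - 1‖ + ‖a * y‖) * (1 + ‖z‖) ^ 3
        ≤ (3 * R * ‖z‖) * (8 * ‖z‖ ^ 3) :=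
          mul_le_mul n1 n4 (by positivity) (by positivity)
      _ = 24 * R * ‖z‖ ^ 4 := by ring
      _ ≤ 24 * R * (8 * (‖z‖ * ‖z - 1‖ * ‖z - a‖ * ‖z - y‖)) :=
          mul_le_mul_of_nonneg_left n2 (by positivity)
      _ = _ := by ring
  rw [← ofReal_norm, ← ofReal_norm (a - y), ← ENNReal.ofReal_mul (by positivity),
    ← ENNReal.ofReal_mul (by positivity)]
  exact ENNReal.ofReal_le_ofReal (h4.trans h5)

private theorem ka_shift {R : ℝ} {a y : ℂ} (hR : ‖y‖ ≤ R) :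
    ∫⁻ z in ball (0 : ℂ) R, ‖1 / (z - a) - 1 / (z - y)‖ₑ ≤
      ∫⁻ u in ball (0 : ℂ) (2 * R), ‖1 / (u - (a - y)) - 1 / u‖ₑ := by
  rw [← lintegral_indicator measurableSet_ball, ← lintegral_indicator measurableSet_ball,
    ← lintegral_add_right_eq_self _ y]
  refine lintegral_mono fun u => ?_
  by_cases hu : u + y ∈ ball (0 : ℂ) R
  · have hu' : u ∈ ball (0 : ℂ) (2 * R) := by
      rw [mem_ball_zero_iff] at hu ⊢
      have := norm_sub_le (u + y) y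
      rw [add_sub_cancel_right] at this
      linarith
    rw [indicator_of_mem hu, indicator_of_mem hu', add_sub_cancel_right,
      show u + y - a = u - (a - y) by ring]
  · rw [indicator_of_notMem hu]
    exact zero_le

theorem ka_cont {y : ℂ} {x : ℕ → ℂ} (hx : Tendsto x atTop (𝓝 y)) :
    Tendsto (fun j => ∫⁻ z : ℂ, ‖KA (x j) z - KA y z‖ₑ) atTop (𝓝 0) := by
  obtain ⟨R, hR⟩ : ∃ R : ℝ, R = 2 * (‖y‖ + 2) := ⟨_, rfl⟩
  have hy0 := norm_nonneg y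
  have hR4 : 4 ≤ R := by linarith
  have hev : ∀ᶠ j in atTop, ‖x j‖ < ‖y‖ + 1 := hx.norm.eventually_lt_const (by linarith)
  have hn : Tendsto (fun j => ‖x j - y‖ₑ) atTop (𝓝 0) := by
    have h1 := ENNReal.tendsto_ofReal (tendsto_iff_norm_sub_tendsto_zero.1 hx)
    simp only [ofReal_norm, ENNReal.ofReal_zero] at h1
    exact h1
  have hG : ∫⁻ z : ℂ, ENNReal.ofReal ((1 + ‖z‖) ^ (-(3 : ℝ))) < ⊤ :=
    finite_integral_one_add_norm (by rw [Complex.finrank_real_complex]; norm_num)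
  obtain ⟨A, hA⟩ : ∃ A : ENNReal, A = (ENNReal.ofReal (3 * Real.pi * R) +
      ENNReal.ofReal (3 * Real.pi * R)) + ENNReal.ofReal (192 * R) *
      ∫⁻ z : ℂ, ENNReal.ofReal ((1 + ‖z‖) ^ (-(3 : ℝ))) := ⟨_, rfl⟩
  have hAf : A ≠ ⊤ := by
    rw [hA]
    exact ENNReal.add_ne_top.2 ⟨ENNReal.add_ne_top.2 ⟨ENNReal.ofReal_ne_top,
      ENNReal.ofReal_ne_top⟩, ENNReal.mul_ne_top ENNReal.ofReal_ne_top hG.ne⟩
  have hz : Tendsto (fun j => x j - y) atTop (𝓝 0) := by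
    have := hx.sub_const y
    rwa [sub_self] at this
  have hk := Pool.Agent.H3.NC.kl1 (r := 2 * R) (by linarith)
    (tendsto_const_nhds (x := (1 : ℂ)) (f := atTop)) hz
  have hB : Tendsto (fun j => (∫⁻ u in ball (0 : ℂ) (2 * R), ‖1 / (u - (x j - y)) - 1 / u‖ₑ) +
      ‖x j - y‖ₑ * A) atTop (𝓝 0) := by
    have h1 := hk.add (ENNReal.Tendsto.mul_const hn (Or.inr hAf))
    rw [zero_mul, add_zero] at h1
    exact h1
  refine tendsto_of_tendsto_of_tendsto_of_le_of_le' tendsto_const_nhds hB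
    (Eventually.of_forall fun j => zero_le) ?_
  filter_upwards [hev] with j hj
  have hpt : ∀ᵐ z : ℂ, ‖KA (x j) z - KA y z‖ₑ ≤
      (ball (0 : ℂ) R).indicator (fun z => ‖1 / (z - x j) - 1 / (z - y)‖ₑ) z +
      (‖x j - y‖ₑ * (ball (0 : ℂ) R).indicator (fun z => ‖(z - 0)⁻¹‖ₑ + ‖(z - 1)⁻¹‖ₑ) z +
      ‖x j - y‖ₑ * (ENNReal.ofReal (192 * R) * ENNReal.ofReal ((1 + ‖z‖) ^ (-(3 : ℝ))))) := by
    filter_upwards [(countable_singleton (0 : ℂ)).ae_notMem volume,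
      (countable_singleton (1 : ℂ)).ae_notMem volume,
      (countable_singleton (x j)).ae_notMem volume,
      (countable_singleton y).ae_notMem volume] with z h0 h1 h2 h3
    rw [mem_singleton_iff] at h0 h1 h2 h3
    by_cases hzR : z ∈ ball (0 : ℂ) R
    · rw [indicator_of_mem hzR, indicator_of_mem hzR, ← add_assoc]
      exact (ka_in h0 h1 h2 h3).trans le_self_add
    · rw [indicator_of_notMem hzR, indicator_of_notMem hzR, mul_zero, zero_add, zero_add]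
      rw [mem_ball_zero_iff, not_lt] at hzR
      exact ka_out hR4 hzR (by linarith) (by linarith)
  refine (lintegral_mono_ae hpt).trans ?_
  have m1 : Measurable fun z : ℂ => ‖1 / (z - x j) - 1 / (z - y)‖ₑ := by fun_prop
  have m2 : Measurable fun z : ℂ => ‖(z - 0)⁻¹‖ₑ + ‖(z - 1)⁻¹‖ₑ := by fun_prop
  have m3 : Measurable fun z : ℂ => ENNReal.ofReal ((1 + ‖z‖) ^ (-(3 : ℝ))) := by fun_prop
  have m4 : Measurable fun z : ℂ => ‖(z - 0)⁻¹‖ₑ := by fun_prop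
  rw [lintegral_add_left (m1.indicator measurableSet_ball),
    lintegral_add_left ((m2.indicator measurableSet_ball).const_mul _),
    lintegral_const_mul _ (m2.indicator measurableSet_ball),
    lintegral_const_mul _ (m3.const_mul _), lintegral_const_mul _ m3,
    lintegral_indicator measurableSet_ball, lintegral_indicator measurableSet_ball,
    lintegral_add_left m4]
  refine add_le_add (ka_shift (by linarith)) ?_
  have hR0 : 0 < R := by linarith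
  rw [hA, ← mul_add]
  exact mul_le_mul' le_rfl (add_le_add (add_le_add
    (Pool.Agent.H3.NC.kin_ball 0 hR0) (Pool.Agent.H3.NC.kin_ball 1 hR0)) le_rfl)

end Pool.Agent.H31.NS
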