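import Pool.Agent.H78.NS.Defs
import Pool.Agent.H31.NS.TEL
import Pool.Agent.H31.NS.AS
import Pool.Agent.H31.NS.IDN
import Pool.Agent.H31.NS.KAC

/-!
# Module CVT: `aS (n j) - pf (aS (n j))` converges in `L ^ 1` along a subsequence

PROOF. `2 d + 1` nodes `p` with `b p ≠ 0`; `η p = E p x = b p ^ 2 (dg p * pf (KA p) x - KA (gg p) x)`: integrable functions of `x`; `Lam η = ∑_p E p x * Lam (L_p)` with the Lagrange polynomials `L_p`. The numbers `tD (n j) v * Lam (L_p) c (n j)` are bounded (`c` is passive, the points `g^(n j) v` are bounded), so they converge along a subsequence.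
-/

set_option autoImplicit false

open Filter Topology Polynomial Metric Set MeasureTheory

namespace Pool.Agent.H31.NS

open Pool.Agent.H61.TT Pool.Agent.H57.CP Pool.Agent.H3.NC Pool.Agent.H78.NS
open Pool.Agent.H1.PU (KA ka_int)

variable {d : ℕ} {a b : Polynomial ℂ} {c : ℂ}

theorem cvt {L0 θ : ℝ} {y x0 : ℂ} {δ δ' : ℝ} {n s : ℕ → ℕ} {G : ℕ → ℂ → ℂ} (h : SP d a b L0 θ)
    (hc : CD a b c y δ') (hp : PasS d a b c) (hs : SQS a b (gg a b c) y x0 δ n s G) :
    ∃ (φ : ℕ → ℕ) (τ : ℂ → ℂ), StrictMono φ ∧ Integrable τ ∧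
      Tendsto (fun j => ∫⁻ x : ℂ, ‖aS a b (gg a b c) (n (φ j)) x - pf a b (aS a b (gg a b c) (n (φ j))) x - τ x‖ₑ)
        atTop (𝓝 0) := by
  set v : ℂ := gg a b c with hv
  have hb : b ≠ 0 := b_ne h.rt
  obtain ⟨F, hF, hFc⟩ := (b.roots.toFinset.finite_toSet).infinite_compl.exists_subset_card_eq (2 * d + 1)
  have hFb : ∀ p ∈ F, b.eval p ≠ 0 := by
    intro p hp1 hp2
    refine hF hp1 ?_
    rw [Finset.mem_coe, Multiset.mem_toFinset, mem_roots hb]
    exact hp2
  have hinj : Set.InjOn (id : ℂ → ℂ) (F : Set ℂ) := Function.injective_id.injOn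
  have hLd : ∀ p ∈ F, (Lagrange.basis F id p).natDegree ≤ 2 * d := by
    intro p hp1
    rw [natDegree_le_iff_degree_le, Lagrange.degree_basis hinj hp1, hFc]
    simp
  obtain ⟨B, hB0, hB⟩ := vn_bdd hs
  have hex : ∀ p : F, ∃ C : ℝ, ∀ j, ‖tD a b (n j) v * Lam a b (Lagrange.basis F id (p : ℂ)) c (n j)‖ ≤ C := by
    intro p
    obtain ⟨C, hC⟩ := hp _ (hLd p p.2)
    refine ⟨|C| * (1 + B ^ 2), fun j => ?_⟩
    have h1 := hC (n j)
    have h2 := hB j
    rw [norm_mul, mul_comm]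
    refine h1.trans ?_
    calc C * (1 + ‖(gg a b)^[n j] (gg a b c)‖ ^ 2) ≤ |C| * (1 + ‖(gg a b)^[n j] (gg a b c)‖ ^ 2) :=
          mul_le_mul_of_nonneg_right (le_abs_self _) (by positivity)
      _ ≤ |C| * (1 + B ^ 2) := by gcongr
  choose Cp hCp using hex
  have hCp0 : ∀ p : F, 0 ≤ Cp p := fun p => (norm_nonneg _).trans (hCp p 0)
  obtain ⟨u, hu⟩ : ∃ u : ℕ → (F → ℂ), u = fun j (p : F) => tD a b (n j) v * Lam a b (Lagrange.basis F id (p : ℂ)) c (n j) :=
    ⟨_, rfl⟩
  have hub : ∀ j, u j ∈ closedBall (0 : F → ℂ) (∑ p, Cp p) := by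
    intro j
    rw [mem_closedBall_zero_iff, pi_norm_le_iff_of_nonneg (Finset.sum_nonneg fun p _ => hCp0 p)]
    intro p
    rw [hu]
    exact (hCp p j).trans (Finset.single_le_sum (f := Cp) (fun q _ => hCp0 q) (Finset.mem_univ p))
  obtain ⟨l, -, φ, hφ, hl⟩ := tendsto_subseq_of_bounded isBounded_closedBall hub
  obtain ⟨E, hE⟩ : ∃ E : ℂ → ℂ → ℂ, E = fun p x => b.eval p ^ 2 * (dg a b p * pf a b (KA p) x - KA (gg a b p) x) :=
    ⟨_, rfl⟩
  have hEi : ∀ p, Integrable (E p) := by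
    intro p
    rw [hE]
    exact (((pf_ka h.rt p).const_mul _).sub (ka_int _)).const_mul _
  have hEv : ∀ (x : ℂ) (η : Polynomial ℂ), LgK d a b x η → (∀ p ∈ F, gg a b p ≠ x) → ∀ p ∈ F, η.eval p = E p x := by
    intro x η hη hx p hp1
    have h1 := hη.2 p (hFb p hp1) (hx p hp1)
    have h2 := hFb p hp1
    rw [hE]
    simp only
    rw [h1, add_sub_cancel_left]
    field_simp
  -- the identity
  have hid : ∀ j, ∀ᵐ x : ℂ, aS a b v (n j) x - pf a b (aS a b v (n j)) x =
      - (∑ p : F, u j p * E (p : ℂ) x) - KA ((gg a b)^[n j] v) x := by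
    intro j
    have hf1 : ((gg a b) '' (F : Set ℂ)).Finite := (Finset.finite_toSet _).image _
    filter_upwards [idn_ae hc (n := n j) (fun k hk => tD_ne hs j k hk), compl_mem_ae_iff.2 ((lgk_fin h).measure_zero volume),
      compl_mem_ae_iff.2 (hf1.measure_zero volume)] with x hx1 hx2 hx3
    obtain ⟨η, hη⟩ := not_not.1 hx2
    have hx4 : ∀ p ∈ F, gg a b p ≠ x := fun p hp1 hpx => hx3 ⟨p, hp1, hpx⟩
    have hev : ∀ z : ℂ, η.eval z = ∑ p ∈ F, η.eval p * (Lagrange.basis F id p).eval z := by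
      intro z
      have h1 : η.degree < (F.card : WithBot ℕ) := by
        rw [hFc]
        refine lt_of_le_of_lt degree_le_natDegree ?_
        exact_mod_cast Nat.lt_succ_of_le hη.1
      have h2 := Lagrange.eq_interpolate (v := id) hinj h1
      rw [Lagrange.interpolate_apply] at h2
      conv_lhs => rw [h2]
      rw [eval_finsetSum]
      refine Finset.sum_congr rfl fun p _ => ?_
      rw [eval_mul, eval_C]
      rfl
    have hLam : Lam a b η c (n j) = ∑ p ∈ F, η.eval p * Lam a b (Lagrange.basis F id p) c (n j) := by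
      unfold Lam
      simp only [Finset.mul_sum]
      rw [Finset.sum_comm]
      refine Finset.sum_congr rfl fun k _ => ?_
      rw [hev, Finset.sum_div, Finset.sum_div]
      refine Finset.sum_congr rfl fun p _ => ?_
      ring
    rw [hx1 η hη, hLam]
    have h5 : tD a b (n j) (gg a b c) * ∑ p ∈ F, η.eval p * Lam a b (Lagrange.basis F id p) c (n j) =
        ∑ p : F, u j p * E (p : ℂ) x := by
      rw [Finset.mul_sum, ← Finset.sum_coe_sort F]
      refine Finset.sum_congr rfl fun p _ => ?_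
      rw [hEv x η hη hx4 p p.2, hu]
      ring
    rw [h5]
  have hka := ka_cont (hs.yl.comp hφ.tendsto_atTop)
  refine ⟨φ, fun x => - (∑ p : F, l p * E (p : ℂ) x) - KA y x, hφ, ?_, ?_⟩
  · have h1 : Integrable (fun x => ∑ p : F, l p * E (p : ℂ) x) :=
      integrable_finsetSum _ fun p _ => (hEi p).const_mul _
    exact h1.neg.sub (ka_int _)
  · have hbd : ∀ j, ∫⁻ x : ℂ, ‖aS a b v (n (φ j)) x - pf a b (aS a b v (n (φ j))) x -
        (- (∑ p : F, l p * E (p : ℂ) x) - KA y x)‖ₑ ≤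
        (∑ p : F, ‖u (φ j) p - l p‖ₑ * (∫⁻ x : ℂ, ‖E (p : ℂ) x‖ₑ)) +
          ∫⁻ x : ℂ, ‖KA ((gg a b)^[n (φ j)] v) x - KA y x‖ₑ := by
      intro j
      have hm : ∀ p : F, AEMeasurable (fun x : ℂ => ‖u (φ j) p - l p‖ₑ * ‖E (p : ℂ) x‖ₑ) volume :=
        fun p => ((hEi p).aestronglyMeasurable.enorm).const_mul _
      have e1 : ∑ p : F, ‖u (φ j) p - l p‖ₑ * ∫⁻ x : ℂ, ‖E (p : ℂ) x‖ₑ =
          ∫⁻ x : ℂ, ∑ p : F, ‖u (φ j) p - l p‖ₑ * ‖E (p : ℂ) x‖ₑ := by
        rw [lintegral_finsetSum' _ fun p _ => hm p]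
        refine Finset.sum_congr rfl fun p _ => ?_
        rw [lintegral_const_mul'' _ (hEi p).aestronglyMeasurable.enorm]
      have hm2 : AEMeasurable (fun x : ℂ => ∑ p : F, ‖u (φ j) p - l p‖ₑ * ‖E (p : ℂ) x‖ₑ) volume :=
        Finset.aemeasurable_fun_sum _ fun p _ => hm p
      rw [e1, ← lintegral_add_left' hm2]
      refine lintegral_mono_ae ?_
      filter_upwards [hid (φ j)] with x hx
      rw [hx]
      have e2 : - (∑ p : F, u (φ j) p * E (p : ℂ) x) - KA ((gg a b)^[n (φ j)] v) x -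
          (- (∑ p : F, l p * E (p : ℂ) x) - KA y x) =
          - (∑ p : F, (u (φ j) p - l p) * E (p : ℂ) x) - (KA ((gg a b)^[n (φ j)] v) x - KA y x) := by
        have e3 : ∑ p : F, (u (φ j) p - l p) * E (p : ℂ) x = ∑ p : F, u (φ j) p * E (p : ℂ) x -
            ∑ p : F, l p * E (p : ℂ) x := by
          rw [← Finset.sum_sub_distrib]
          exact Finset.sum_congr rfl fun p _ => by ring
        rw [e3]
        ring
      rw [e2]
      refine (enorm_sub_le).trans (add_le_add ?_ le_rfl)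
      rw [enorm_neg]
      refine (enorm_sum_le _ _).trans (le_of_eq (Finset.sum_congr rfl fun p _ => ?_))
      rw [enorm_mul]
    refine tendsto_of_tendsto_of_tendsto_of_le_of_le tendsto_const_nhds ?_ (fun j => bot_le) hbd
    have h6 : Tendsto (fun j => ∑ p : F, ‖u (φ j) p - l p‖ₑ * ∫⁻ x : ℂ, ‖E (p : ℂ) x‖ₑ) atTop
        (𝓝 (∑ p : F, 0 * ∫⁻ x : ℂ, ‖E (p : ℂ) x‖ₑ)) := by
      refine tendsto_finsetSum _ fun p _ => ?_
      refine ENNReal.Tendsto.mul_const ?_ (Or.inr ?_)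
      · have h7 : Tendsto (fun j => u (φ j) p - l p) atTop (𝓝 0) := by
          have h8 := (continuous_apply p).continuousAt.tendsto.comp hl
          have h9 := h8.sub (tendsto_const_nhds (x := l p))
          rw [sub_self] at h9
          exact h9
        have h8 := (continuous_enorm.tendsto (0 : ℂ)).comp h7
        rwa [enorm_zero] at h8
      · exact (hEi p).hasFiniteIntegral.ne
    have h7 := h6.add hka
    simpa using h7

end Pool.Agent.H31.NS
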